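import Pool.Agent.Helper43.FV.Spec

/-!
# Module ELLD: halving of points and finiteness of the 2-torsion
-/

namespace Pool.Agent.Helper43.FV

open WeierstrassCurve WeierstrassCurve.Affine

theorem ELLD_quartic (A B u : ℂ) :
    ∃ s : ℂ, (3 * s ^ 2 + A) ^ 2 = 4 * (s ^ 3 + A * s + B) * (2 * s + u) := by
  let p : Polynomial ℂ := Polynomial.X ^ 4 + Polynomial.C (-4 * u) * Polynomial.X ^ 3 +
    Polynomial.C (-2 * A) * Polynomial.X ^ 2 + Polynomial.C (-(4 * A * u + 8 * B)) * Polynomial.X +
    Polynomial.C (A ^ 2 - 4 * B * u)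
  have hdeg : p.degree = 4 := by
    simp only [p]
    compute_degree!
  obtain ⟨s, hs⟩ := IsAlgClosed.exists_root p (by rw [hdeg]; decide)
  refine ⟨s, ?_⟩
  have h : s ^ 4 + (-4 * u) * s ^ 3 + (-2 * A) * s ^ 2 + (-(4 * A * u + 8 * B)) * s +
      (A ^ 2 - 4 * B * u) = 0 := by
    simpa [p, Polynomial.IsRoot] using hs
  linear_combination h

theorem ELLD_eqn_iff (A B x y : ℂ) :
    (WC A B).Equation x y ↔ y ^ 2 = x ^ 3 + A * x + B := by
  rw [equation_iff]
  simp [WC]

theorem ELLD_negY (A B x y : ℂ) : (WC A B).negY x y = -y := by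
  simp [negY, WC]

theorem ELLD_nonsing (A B x y : ℂ) (h : y ^ 2 = x ^ 3 + A * x + B) (hy : y ≠ 0) :
    (WC A B).Nonsingular x y := by
  rw [nonsingular_iff]
  refine ⟨(ELLD_eqn_iff A B x y).2 h, Or.inr ?_⟩
  intro h'
  apply hy
  simp only [WC] at h'
  linear_combination (1 / 2) * h'

open Classical in
theorem ELLD_half (A B : ℂ) (hd : 4 * A ^ 3 + 27 * B ^ 2 ≠ 0) (e : (WC A B).Point) :
    ∃ e', e' + e' = e := by
  rcases e with _ | ⟨u, v, huv⟩
  · exact ⟨0, add_zero _⟩
  · obtain ⟨s, hs⟩ := ELLD_quartic A B u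
    obtain ⟨t, ht⟩ := IsAlgClosed.exists_pow_nat_eq (s ^ 3 + A * s + B) (n := 2) (by norm_num)
    have ht0 : t ≠ 0 := by
      intro h0
      rw [h0] at ht
      have h1 : s ^ 3 + A * s + B = 0 := by rw [← ht]; ring
      rw [h1] at hs
      have h2 : 3 * s ^ 2 + A = 0 := by
        have : (3 * s ^ 2 + A) ^ 2 = 0 := by rw [hs]; ring
        exact pow_eq_zero_iff (two_ne_zero) |>.1 this
      apply hd
      have hA : A = -(3 * s ^ 2) := by linear_combination h2
      have hB : B = 2 * s ^ 3 := by
        rw [hA] at h1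
        linear_combination h1
      rw [hA, hB]
      ring
    have hns : (WC A B).Nonsingular s t := ELLD_nonsing A B s t ht ht0
    have hne : t ≠ (WC A B).negY s t := by
      rw [ELLD_negY]
      intro h
      apply ht0
      linear_combination (1 / 2) * h
    have hadd := Point.add_self_of_Y_ne (h₁ := hns) hne
    have hX : (WC A B).addX s s ((WC A B).slope s s t t) = u := by
      rw [slope_of_Y_ne rfl hne, ELLD_negY]
      simp only [addX, WC]
      have h2 : t - -t ≠ 0 := by
        intro h
        apply ht0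
        linear_combination (1 / 2) * h
      have h3 : ((3 * s ^ 2 + A) / (t - -t)) ^ 2 = 2 * s + u := by
        rw [div_pow, div_eq_iff (pow_ne_zero 2 h2), hs, ← ht]
        ring
      have h4 : (3 * s ^ 2 + 2 * 0 * s + A - 0 * t) / (t - -t) = (3 * s ^ 2 + A) / (t - -t) := by
        congr 1
        ring
      rw [h4, h3]
      ring
    obtain ⟨w, hw, hww⟩ : ∃ w, ∃ hw : (WC A B).Nonsingular u w,
        Point.some s t hns + Point.some s t hns = Point.some u w hw := by
      rw [hadd]
      exact ⟨_, hX ▸ nonsingular_add hns hns fun hxy => hne hxy.right, by congr 1⟩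
    have e1 := (ELLD_eqn_iff A B u v).1 huv.1
    have e2 := (ELLD_eqn_iff A B u w).1 hw.1
    have e3 : (w - v) * (w + v) = 0 := by linear_combination e2 - e1
    rcases mul_eq_zero.1 e3 with h | h
    · have hwv : w = v := sub_eq_zero.1 h
      subst hwv
      exact ⟨_, hww⟩
    · have hwv : w = -v := by linear_combination h
      refine ⟨-Point.some s t hns, ?_⟩
      rw [← neg_add, hww, Point.neg_some]
      congr 1
      rw [ELLD_negY, hwv, neg_neg]

open Classical in
theorem ELLD_two (A B : ℂ) : {e : (WC A B).Point | e + e = 0}.Finite := by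
  let p : Polynomial ℂ := Polynomial.X ^ 3 + Polynomial.C A * Polynomial.X + Polynomial.C B
  have hp : p ≠ 0 := by
    intro h
    have h1 : p.coeff 3 = 1 := by
      simp [p, Polynomial.coeff_X]
    rw [h] at h1
    simp at h1
  let f : (WC A B).Point → Option (ℂ × ℂ) := fun e =>
    match e with
    | .zero => none
    | .some x y _ => some (x, y)
  have hf : Function.Injective f := by
    intro a b h
    rcases a with _ | ⟨x, y, hxy⟩ <;> rcases b with _ | ⟨x', y', hxy'⟩
    · rfl
    · simp [f] at h
    · simp [f] at h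
    · simp only [f, Option.some.injEq, Prod.mk.injEq] at h
      obtain ⟨rfl, rfl⟩ := h
      rfl
  apply Set.Finite.of_finite_image _ hf.injOn
  apply ((p.roots.toFinset.finite_toSet.image (fun x => some (x, (0 : ℂ)))).insert none).subset
  rintro _ ⟨e, he, rfl⟩
  rcases e with _ | ⟨x, y, hxy⟩
  · exact Set.mem_insert _ _
  · right
    have hy : y = 0 := by
      by_contra h
      have hne : y ≠ (WC A B).negY x y := by
        rw [ELLD_negY]
        intro h'
        apply h
        linear_combination (1 / 2) * h'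
      have := Point.add_self_of_Y_ne (h₁ := hxy) hne
      rw [Set.mem_ofPred_eq, this] at he
      exact absurd he (by simp)
    refine ⟨x, ?_, by simp only [f, hy]⟩
    have e1 := (ELLD_eqn_iff A B x y).1 hxy.1
    rw [hy] at e1
    simp only [Finset.mem_coe, Multiset.mem_toFinset, Polynomial.mem_roots hp,
      Polynomial.IsRoot, p, Polynomial.eval_add, Polynomial.eval_mul, Polynomial.eval_pow,
      Polynomial.eval_X, Polynomial.eval_C]
    rw [← e1]
    ring

theorem st_ELLD : ST_ELLD := fun A B hd => ⟨ELLD_half A B hd, ELLD_two A B⟩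

end Pool.Agent.Helper43.FV
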